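import Pool.Agent.R161.Az.Defs

/-!
Part HALF of MP_315d97_co: perfect matchings of the half Aztec diamond with dents are counted by
determinants of the path matrix.
-/

set_option autoImplicit false

namespace Pool.Agent.R168.Az

open Finset Matrix Pool.Agent.R161.Az

theorem hadj_symm : ∀ x y : ℕ × ℕ, HAdj x y → HAdj y x := by
  rintro ⟨a, b⟩ ⟨c, d⟩ h
  simp only [HAdj] at *
  omega

theorem hadj_irr : ∀ x : ℕ × ℕ, ¬ HAdj x x := by
  rintro ⟨a, b⟩ h
  simp only [HAdj] at h
  omega

theorem mc_empty (h : S_mc) : mc HAdj (∅ : Finset (ℕ × ℕ)) = 1 :=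
  (h (ℕ × ℕ) HAdj hadj_symm hadj_irr).1

theorem mc_rec (h : S_mc) (U : Finset (ℕ × ℕ)) (v : ℕ × ℕ) (hv : v ∈ U) :
    mc HAdj U = ∑ w ∈ U, open Classical in
      (if HAdj v w then mc HAdj ((U.erase v).erase w) else 0) :=
  ((h (ℕ × ℕ) HAdj hadj_symm hadj_irr).2 U v hv).2

theorem mc_three (h : S_mc) (U : Finset (ℕ × ℕ)) (v : ℕ × ℕ) (hv : v ∈ U) (a b c : ℕ × ℕ)
    (hab : a ≠ b) (hac : a ≠ c) (hbc : b ≠ c)
    (hN : ∀ w ∈ U, HAdj v w ↔ w = a ∨ w = b ∨ w = c) :
    mc HAdj U = (if a ∈ U then mc HAdj ((U.erase v).erase a) else 0) +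
      (if b ∈ U then mc HAdj ((U.erase v).erase b) else 0) +
      (if c ∈ U then mc HAdj ((U.erase v).erase c) else 0) := by
  classical
  rw [mc_rec h U v hv]
  have h1 : ∀ w ∈ U, (if HAdj v w then mc HAdj ((U.erase v).erase w) else 0) =
      (if w = a then mc HAdj ((U.erase v).erase w) else 0) +
      (if w = b then mc HAdj ((U.erase v).erase w) else 0) +
      (if w = c then mc HAdj ((U.erase v).erase w) else 0) := by
    intro w hw
    have h2 := hN w hw
    by_cases ha : w = a
    · subst ha
      rw [if_pos (h2.2 (Or.inl rfl)), if_pos rfl, if_neg hab, if_neg hac]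
      simp
    · by_cases hb : w = b
      · subst hb
        rw [if_pos (h2.2 (Or.inr (Or.inl rfl))), if_neg ha, if_pos rfl, if_neg hbc]
        simp
      · by_cases hc : w = c
        · subst hc
          rw [if_pos (h2.2 (Or.inr (Or.inr rfl))), if_neg ha, if_neg hb, if_pos rfl]
          simp
        · rw [if_neg ha, if_neg hb, if_neg hc, if_neg]
          intro h3
          rcases h2.1 h3 with h4 | h4 | h4
          · exact ha h4
          · exact hb h4
          · exact hc h4
  refine (Finset.sum_congr rfl h1).trans ?_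
  rw [Finset.sum_add_distrib, Finset.sum_add_distrib, Finset.sum_ite_eq', Finset.sum_ite_eq',
    Finset.sum_ite_eq']

theorem mc_one (h : S_mc) (U : Finset (ℕ × ℕ)) (v : ℕ × ℕ) (hv : v ∈ U) (c : ℕ × ℕ) (hc : c ∈ U)
    (hN : ∀ w ∈ U, HAdj v w ↔ w = c) : mc HAdj U = mc HAdj ((U.erase v).erase c) := by
  classical
  rw [mc_rec h U v hv, Finset.sum_eq_single c]
  · rw [if_pos ((hN c hc).2 rfl)]
  · intro w hw hwc
    rw [if_neg]
    intro h3
    exact hwc ((hN w hw).1 h3)
  · intro h3
    exact absurd hc h3

theorem mc_none (h : S_mc) (U : Finset (ℕ × ℕ)) (v : ℕ × ℕ) (hv : v ∈ U)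
    (hN : ∀ w ∈ U, ¬ HAdj v w) : mc HAdj U = 0 := by
  classical
  rw [mc_rec h U v hv]
  apply Finset.sum_eq_zero
  intro w hw
  rw [if_neg (hN w hw)]

/-- relabelling -/
theorem mc_map (h : S_mc) (φ : ℕ × ℕ ↪ ℕ × ℕ) (hφ : ∀ x y, HAdj (φ x) (φ y) ↔ HAdj x y) :
    ∀ (k : ℕ) (H : Finset (ℕ × ℕ)), H.card ≤ k → mc HAdj (H.map φ) = mc HAdj H := by
  classical
  intro k
  induction k with
  | zero =>
    intro H hH
    have : H = ∅ := Finset.card_eq_zero.1 (by omega)
    subst this
    simp
  | succ k ih =>
    intro H hH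
    rcases Finset.eq_empty_or_nonempty H with h0 | ⟨v, hv⟩
    · subst h0
      simp
    · rw [mc_rec h (H.map φ) (φ v) (Finset.mem_map_of_mem φ hv), mc_rec h H v hv, Finset.sum_map]
      refine Finset.sum_congr rfl (fun w hw => ?_)
      by_cases h1 : HAdj v w
      · rw [if_pos h1, if_pos ((hφ v w).2 h1)]
        rw [← Finset.map_erase, ← Finset.map_erase]
        apply ih
        have hwv : w ∈ H.erase v := by
          rw [Finset.mem_erase]
          refine ⟨?_, hw⟩
          rintro rfl
          exact hadj_irr _ h1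
        have h2 := Finset.card_erase_lt_of_mem hwv
        have h3 := Finset.card_erase_lt_of_mem hv
        omega
      · rw [if_neg h1, if_neg (fun h2 => h1 ((hφ v w).1 h2))]

/-! ### the matrices -/

def xx : ℕ → ℕ → ℤ
  | 0, s => if s = 0 then 1 else 0
  | i + 1, s => if s = 0 then 0 else rr i (s - 1)

def yy (i s : ℕ) : ℤ := xx i s + xx i (s - 1) + xx i (s + 1)

theorem rr_even (i s : ℕ) (hs : s % 2 = 0) : rr i s = xx i s := by
  cases i with
  | zero =>
    simp only [rr, xx]
    by_cases h : s = 0
    · subst h; simp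
    · rw [if_neg (by omega), if_neg h]
  | succ i =>
    simp only [rr, xx]
    rw [if_neg (c := s % 2 = 1) (by omega)]
    simp

theorem rr_odd (i s : ℕ) (hs : s % 2 = 1) : rr i s = yy i s := by
  cases i with
  | zero =>
    simp only [rr, xx, yy]
    rw [if_neg (c := s = 0) (by omega), if_neg (c := s + 1 = 0) (by omega)]
    by_cases h : s = 1
    · subst h; simp
    · rw [if_neg (by omega), if_neg (by omega)]
      simp
  | succ i =>
    simp only [rr, xx, yy]
    rw [if_neg (c := s = 0) (by omega), if_pos hs, if_neg (c := s + 1 = 0) (by omega)]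
    by_cases h : s = 1
    · subst h; simp
    · rw [if_neg h, if_neg (c := s - 1 = 0) (by omega)]
      have h1 : s - 1 - 1 = s - 2 := by omega
      have h2 : s + 1 - 1 = s := by omega
      rw [h1, h2]
      ring

theorem rr_supp : ∀ (i s : ℕ), 2 * i + 1 < s → rr i s = 0 := by
  intro i
  induction i with
  | zero =>
    intro s hs
    simp only [rr]
    rw [if_neg (by omega)]
  | succ i ih =>
    intro s hs
    simp only [rr]
    rw [if_neg (by omega), ih (s - 1) (by omega), ih s (by omega), if_neg (c := s = 1) (by omega),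
      ih (s - 2) (by omega)]
    simp

theorem xx_supp (m i s : ℕ) (hi : i < m + 1) (hs : 2 * m < s) : xx i s = 0 := by
  cases i with
  | zero =>
    simp only [xx]
    rw [if_neg (by omega)]
  | succ i =>
    simp only [xx]
    rw [if_neg (by omega), rr_supp i (s - 1) (by omega)]

def DM (m : ℕ) (t : Fin (m + 1) → ℕ) (B : Finset ℕ) : Matrix (Fin (m + 1)) (Fin (m + 1)) ℤ :=
  Matrix.of fun i j => if t j ∈ B then yy i (t j) else xx i (t j)

/-! ### the regions -/

def US (m : ℕ) (T B : Finset ℕ) : Finset (ℕ × ℕ) :=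
  (range (m + 1) ×ˢ range (2 * (m + 1))).filter (fun a => a.2 < 2 * (m + 1 - a.1) ∧
    (a.1 = 0 → (a.2 % 2 = 0 ∧ a.2 ∉ T) ∨ a.2 ∈ B) ∧
    (a.1 = 1 → a.2 % 2 = 0 → a.2 + 1 ∈ T → a.2 + 1 ∈ B))

theorem mem_US (m : ℕ) (T B : Finset ℕ) (c r : ℕ) : (c, r) ∈ US m T B ↔
    c < m + 1 ∧ r < 2 * (m + 1 - c) ∧ (c = 0 → (r % 2 = 0 ∧ r ∉ T) ∨ r ∈ B) ∧
      (c = 1 → r % 2 = 0 → r + 1 ∈ T → r + 1 ∈ B) := by
  unfold US
  rw [Finset.mem_filter, Finset.mem_product, Finset.mem_range, Finset.mem_range]
  constructor
  · rintro ⟨⟨h1, h2⟩, h3, h4, h5⟩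
    exact ⟨h1, h3, h4, h5⟩
  · rintro ⟨h1, h3, h4, h5⟩
    refine ⟨⟨h1, ?_⟩, h3, h4, h5⟩
    show r < 2 * (m + 1)
    omega

def WE (m : ℕ) (T E : Finset ℕ) : Finset (ℕ × ℕ) :=
  (range (m + 1) ×ˢ range (2 * (m + 1))).filter (fun a => a.2 < 2 * (m + 1 - a.1) ∧
    (a.1 = 0 → a.2 ∈ E) ∧
    (a.1 = 1 → (a.2 % 2 = 1 → (a.2 + 1 ∈ T ∨ a.2 + 1 ∈ E)) ∧ (a.2 % 2 = 0 → a.2 + 1 ∉ T)))

theorem mem_WE (m : ℕ) (T E : Finset ℕ) (c r : ℕ) : (c, r) ∈ WE m T E ↔
    c < m + 1 ∧ r < 2 * (m + 1 - c) ∧ (c = 0 → r ∈ E) ∧
      (c = 1 → (r % 2 = 1 → (r + 1 ∈ T ∨ r + 1 ∈ E)) ∧ (r % 2 = 0 → r + 1 ∉ T)) := by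
  unfold WE
  rw [Finset.mem_filter, Finset.mem_product, Finset.mem_range, Finset.mem_range]
  constructor
  · rintro ⟨⟨h1, h2⟩, h3, h4, h5⟩
    exact ⟨h1, h3, h4, h5⟩
  · rintro ⟨h1, h3, h4, h5⟩
    refine ⟨⟨h1, ?_⟩, h3, h4, h5⟩
    show r < 2 * (m + 1)
    omega

theorem WE_empty (h : S_mc) (m : ℕ) (T : Finset ℕ) : ∀ E : Finset ℕ,
    (∀ r ∈ E, r % 2 = 0 ∧ r ∉ T ∧ 2 ≤ r ∧ r < 2 * (m + 1)) →
    mc HAdj (WE m T E) = mc HAdj (WE m T ∅) := by
  classical
  intro E
  induction E using Finset.induction_on with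
  | empty => intro _; rfl
  | insert r E hr ih =>
    intro hE
    obtain ⟨h1, h2, h3, h4⟩ := hE r (Finset.mem_insert_self r E)
    have hE' : ∀ x ∈ E, x % 2 = 0 ∧ x ∉ T ∧ 2 ≤ x ∧ x < 2 * (m + 1) :=
      fun x hx => hE x (Finset.mem_insert_of_mem hx)
    rw [← ih hE']
    have hodd : ∀ x, x % 2 = 1 → x ∉ insert r E := by
      intro x hx hx2
      have := (hE x hx2).1
      omega
    rw [mc_one h (WE m T (insert r E)) (0, r) ?_ (1, r - 1) ?_ ?_]
    · congr 1
      ext ⟨c, x⟩
      rw [Finset.mem_erase, Finset.mem_erase, mem_WE, mem_WE]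
      simp only [ne_eq, Prod.mk.injEq, Finset.mem_insert]
      constructor
      · rintro ⟨g1, g2, g3, g4, g5, g6⟩
        refine ⟨g3, g4, ?_, ?_⟩
        · intro hc
          rcases g5 hc with g7 | g7
          · exact absurd ⟨hc, g7⟩ g2
          · exact g7
        · intro hc
          refine ⟨?_, (g6 hc).2⟩
          intro hx
          rcases (g6 hc).1 hx with g7 | g7 | g7
          · exact Or.inl g7
          · exfalso
            apply g1
            exact ⟨hc, by omega⟩
          · exact Or.inr g7
      · rintro ⟨g3, g4, g5, g6⟩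
        refine ⟨?_, ?_, g3, g4, ?_, ?_⟩
        · rintro ⟨hc, hx⟩
          have hx1 : x % 2 = 1 := by omega
          have hx2 : x + 1 = r := by omega
          rcases (g6 hc).1 hx1 with g7 | g7
          · rw [hx2] at g7; exact h2 g7
          · rw [hx2] at g7; exact hr g7
        · rintro ⟨hc, hx⟩
          apply hr
          rw [← hx]
          exact g5 hc
        · intro hc
          exact Or.inr (g5 hc)
        · intro hc
          refine ⟨?_, (g6 hc).2⟩
          intro hx
          rcases (g6 hc).1 hx with g7 | g7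
          · exact Or.inl g7
          · exact Or.inr (Or.inr g7)
    · rw [mem_WE]
      refine ⟨by omega, by omega, fun _ => Finset.mem_insert_self r E, fun hc => by omega⟩
    · rw [mem_WE]
      refine ⟨by omega, by omega, fun hc => by omega, fun _ => ⟨fun _ => Or.inr ?_, fun hx => by omega⟩⟩
      have : r - 1 + 1 = r := by omega
      rw [this]
      exact Finset.mem_insert_self r E
    · rintro ⟨c, x⟩ hw
      rw [mem_WE] at hw
      obtain ⟨g3, g4, g5, g6⟩ := hw
      simp only [HAdj, Prod.mk.injEq]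
      constructor
      · rintro (⟨hc, hx⟩ | ⟨hc, hx⟩ | ⟨hc, hx⟩)
        · exfalso
          exact hodd x (by omega) (g5 hc.symm)
        · omega
        · omega
      · rintro ⟨hc, hx⟩
        omega

def shiftEmb : ℕ × ℕ ↪ ℕ × ℕ := ⟨fun a => (a.1 + 1, a.2), by
  rintro ⟨a, b⟩ ⟨c, d⟩ h
  simp only [Prod.mk.injEq] at h ⊢
  omega⟩

theorem shift_adj (x y : ℕ × ℕ) : HAdj (shiftEmb x) (shiftEmb y) ↔ HAdj x y := by
  obtain ⟨a, b⟩ := x
  obtain ⟨c, d⟩ := y
  simp only [HAdj, shiftEmb, Function.Embedding.coeFn_mk]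
  omega

theorem mem_Half (m : ℕ) (T : Finset ℕ) (c r : ℕ) : (c, r) ∈ Half m T ↔
    c < m ∧ r < 2 * (m - c) ∧ (c = 0 → ((r % 2 = 0 ∧ r ∉ T) ∨ (r % 2 = 1 ∧ r ∈ T))) := by
  unfold Half
  rw [Finset.mem_filter, Finset.mem_product, Finset.mem_range, Finset.mem_range]
  constructor
  · rintro ⟨⟨h1, h2⟩, h3, h4⟩
    exact ⟨h1, h3, h4⟩
  · rintro ⟨h1, h3, h4⟩
    refine ⟨⟨h1, ?_⟩, h3, h4⟩
    show r < 2 * m
    omega

theorem WE_shift (m : ℕ) (T T1 : Finset ℕ) (hT : ∀ r, r ∈ T1 ↔ r + 1 ∈ T) :
    WE m T ∅ = (Half m T1).map shiftEmb := by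
  ext ⟨c, r⟩
  rw [mem_WE, Finset.mem_map]
  constructor
  · rintro ⟨g1, g2, g3, g4⟩
    have hc : c ≠ 0 := by
      intro hc
      exact absurd (g3 hc) (Finset.notMem_empty r)
    refine ⟨(c - 1, r), ?_, ?_⟩
    · rw [mem_Half]
      refine ⟨by omega, by omega, ?_⟩
      intro hc1
      have hc2 : c = 1 := by omega
      obtain ⟨g5, g6⟩ := g4 hc2
      rcases Nat.mod_two_eq_zero_or_one r with hr | hr
      · left
        refine ⟨hr, ?_⟩
        rw [hT]
        exact g6 hr
      · right
        refine ⟨hr, ?_⟩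
        rw [hT]
        rcases g5 hr with g7 | g7
        · exact g7
        · exact absurd g7 (Finset.notMem_empty _)
    · show (c - 1 + 1, r) = (c, r)
      rw [Prod.mk.injEq]
      exact ⟨by omega, rfl⟩
  · rintro ⟨⟨c', r'⟩, hm, he⟩
    rw [mem_Half] at hm
    obtain ⟨g1, g2, g3⟩ := hm
    have he' : (c' + 1, r') = (c, r) := he
    rw [Prod.mk.injEq] at he'
    obtain ⟨he1, he2⟩ := he'
    subst he2
    subst he1
    refine ⟨by omega, by omega, fun hc => by omega, fun hc => ?_⟩
    have hc' : c' = 0 := by omega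
    rcases g3 hc' with ⟨g4, g5⟩ | ⟨g4, g5⟩
    · rw [hT] at g5
      exact ⟨fun hx => by omega, fun _ => g5⟩
    · rw [hT] at g5
      exact ⟨fun _ => Or.inl g5, fun hx => by omega⟩

/-! ### the base case -/

theorem base_case (h : S_mc) (m : ℕ)
    (ih : ∀ t : Fin m → ℕ, StrictMono t → (∀ j, t j < 2 * m) →
      (mc HAdj (Half m (univ.image t)) : ℤ) = (Matrix.of fun i j : Fin m => rr i (t j)).det)
    (t : Fin (m + 1) → ℕ) (ht : StrictMono t) (hb : ∀ j, t j < 2 * (m + 1))
    (hno : 2 * m + 1 ∉ univ.image t) :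
    (mc HAdj (US m (univ.image t) ∅) : ℤ) = (DM m t ∅).det := by
  classical
  set T := univ.image t with hTdef
  have hmemT : ∀ x, x ∈ T ↔ ∃ j, t j = x := by
    intro x
    rw [hTdef, Finset.mem_image]
    simp
  by_cases h0 : 0 ∈ T
  · -- main case
    have ht0 : t 0 = 0 := by
      obtain ⟨j, hj⟩ := (hmemT 0).1 h0
      have := ht.monotone (Fin.zero_le j)
      omega
    have hpos : ∀ j : Fin m, 1 ≤ t j.succ := by
      intro j
      have := ht (Fin.succ_pos j)
      omega
    -- the determinant
    have hdet : (DM m t ∅).det = (Matrix.of fun i j : Fin m => rr i (t j.succ - 1)).det := by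
      rw [Matrix.det_succ_row_zero]
      rw [Fin.sum_univ_succ]
      rw [Finset.sum_eq_zero]
      · have e1 : DM m t ∅ 0 0 = 1 := by
          simp [DM, xx, ht0]
        rw [e1]
        simp only [Fin.val_zero, pow_zero, one_mul, add_zero]
        congr 1
        ext i j
        have e2 : ((Fin.succ i : Fin (m + 1)) : ℕ) = (i : ℕ) + 1 := Fin.val_succ i
        simp only [DM, Matrix.submatrix_apply, Matrix.of_apply, Finset.notMem_empty, if_false,
          Fin.succAbove_zero]
        rw [e2]
        simp only [xx]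
        rw [if_neg (by have := hpos j; omega)]
      · intro j _
        have e1 : DM m t ∅ 0 j.succ = 0 := by
          have := hpos j
          simp only [DM, Matrix.of_apply, Finset.notMem_empty, if_false, Fin.val_zero, xx]
          rw [if_neg (by omega)]
        rw [e1]
        ring
    rw [hdet]
    -- the region
    set E0 : Finset ℕ := (range (2 * (m + 1))).filter (fun r => r % 2 = 0 ∧ r ∉ T) with hE0
    have hUS : US m T ∅ = WE m T E0 := by
      ext ⟨c, r⟩
      rw [mem_US, mem_WE]
      have hE : ∀ x, x ∈ E0 ↔ x < 2 * (m + 1) ∧ x % 2 = 0 ∧ x ∉ T := by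
        intro x
        rw [hE0, Finset.mem_filter, Finset.mem_range]
      constructor
      · rintro ⟨g1, g2, g3, g4⟩
        refine ⟨g1, g2, ?_, ?_⟩
        · intro hc
          rcases g3 hc with g5 | g5
          · rw [hE]
            exact ⟨by omega, g5⟩
          · exact absurd g5 (Finset.notMem_empty _)
        · intro hc
          refine ⟨?_, ?_⟩
          · intro hr
            by_cases h5 : r + 1 ∈ T
            · exact Or.inl h5
            · right
              rw [hE]
              exact ⟨by omega, by omega, h5⟩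
          · intro hr hr2
            exact absurd (g4 hc hr hr2) (Finset.notMem_empty _)
      · rintro ⟨g1, g2, g3, g4⟩
        refine ⟨g1, g2, ?_, ?_⟩
        · intro hc
          left
          have := (hE r).1 (g3 hc)
          exact this.2
        · intro hc hr hr2
          exact absurd hr2 ((g4 hc).2 hr)
    rw [hUS, WE_empty h m T E0]
    · have hT1 : ∀ r, r ∈ univ.image (fun j : Fin m => t j.succ - 1) ↔ r + 1 ∈ T := by
        intro r
        rw [hmemT, Finset.mem_image]
        constructor
        · rintro ⟨j, _, hj⟩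
          refine ⟨j.succ, ?_⟩
          have := hpos j
          omega
        · rintro ⟨j, hj⟩
          rcases Fin.eq_zero_or_eq_succ j with rfl | ⟨j', rfl⟩
          · rw [ht0] at hj
            omega
          · exact ⟨j', Finset.mem_univ _, by omega⟩
      rw [WE_shift m T _ hT1, mc_map h shiftEmb shift_adj _ _ le_rfl]
      apply ih
      · intro a b hab
        have h1 := ht (Fin.succ_lt_succ_iff.2 hab)
        have h2 := hpos a
        show t a.succ - 1 < t b.succ - 1
        omega
      · intro j
        have h1 := hb j.succ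
        have h2 : t j.succ ≠ 2 * m + 1 := by
          intro h3
          exact hno ((hmemT _).2 ⟨j.succ, h3⟩)
        show t j.succ - 1 < 2 * m
        have h3 := hpos j
        omega
    · intro r hr
      rw [hE0, Finset.mem_filter, Finset.mem_range] at hr
      refine ⟨hr.2.1, hr.2.2, ?_, hr.1⟩
      by_contra h3
      have : r = 0 := by omega
      subst this
      exact hr.2.2 h0
  · -- 0 is not in T
    have hdet : (DM m t ∅).det = 0 := by
      apply Matrix.det_eq_zero_of_row_eq_zero 0
      intro j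
      simp only [DM, Matrix.of_apply, Finset.notMem_empty, if_false, Fin.val_zero, xx]
      rw [if_neg]
      intro h3
      exact h0 ((hmemT 0).2 ⟨j, h3⟩)
    rw [hdet]
    rw [mc_none h (US m T ∅) (0, 0)]
    · rfl
    · rw [mem_US]
      exact ⟨by omega, by omega, fun _ => Or.inl ⟨rfl, h0⟩, fun hc => by omega⟩
    · rintro ⟨c, x⟩ hw
      rw [mem_US] at hw
      obtain ⟨g1, g2, g3, g4⟩ := hw
      simp only [HAdj]
      rintro (⟨hc, hx⟩ | ⟨hc, hx⟩ | ⟨hc, hx⟩)
      · rcases g3 hc.symm with g5 | g5
        · omega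
        · exact absurd g5 (Finset.notMem_empty _)
      · omega
      · omega

/-! ### the inductive step -/

theorem DM_update (m : ℕ) (t : Fin (m + 1) → ℕ) (ht : StrictMono t) (B : Finset ℕ)
    (j : Fin (m + 1)) (hj : t j ∈ B) :
    DM m t B = (DM m t (B.erase (t j))).updateCol j
      ((fun i : Fin (m + 1) => xx i (t j)) + (fun i : Fin (m + 1) => xx i (t j - 1)) +
        (fun i : Fin (m + 1) => xx i (t j + 1))) := by
  ext i k
  by_cases hk : k = j
  · subst hk
    simp only [DM, Matrix.of_apply, Matrix.updateCol_self, Pi.add_apply, yy]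
    rw [if_pos hj]
  · rw [Matrix.updateCol_ne hk]
    simp only [DM, Matrix.of_apply]
    have h1 : t k ≠ t j := fun h2 => hk (ht.injective h2)
    have h2 : t k ∈ B ↔ t k ∈ B.erase (t j) := by
      rw [Finset.mem_erase]
      exact ⟨fun h3 => ⟨h1, h3⟩, fun h3 => h3.2⟩
    by_cases h3 : t k ∈ B
    · rw [if_pos h3, if_pos (h2.1 h3)]
    · rw [if_neg h3, if_neg (fun h4 => h3 (h2.2 h4))]

theorem DM_self (m : ℕ) (t : Fin (m + 1) → ℕ) (B : Finset ℕ) (j : Fin (m + 1)) :
    (DM m t (B.erase (t j))).updateCol j (fun i : Fin (m + 1) => xx i (t j)) =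
      DM m t (B.erase (t j)) := by
  ext i k
  by_cases hk : k = j
  · subst hk
    simp only [DM, Matrix.of_apply, Matrix.updateCol_self]
    rw [if_neg (Finset.notMem_erase _ _)]
  · rw [Matrix.updateCol_ne hk]

theorem DM_move (m : ℕ) (t : Fin (m + 1) → ℕ) (B : Finset ℕ) (j : Fin (m + 1)) (s' : ℕ)
    (hs' : s' ∉ B) :
    (DM m t (B.erase (t j))).updateCol j (fun i : Fin (m + 1) => xx i s') =
      DM m (Function.update t j s') (B.erase (t j)) := by
  ext i k
  by_cases hk : k = j
  · subst hk
    simp only [DM, Matrix.of_apply, Matrix.updateCol_self, Function.update_self]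
    rw [if_neg (fun h => hs' (Finset.mem_of_mem_erase h))]
  · rw [Matrix.updateCol_ne hk]
    simp only [DM, Matrix.of_apply, Function.update_of_ne hk]

theorem sm_update (n : ℕ) (t : Fin n → ℕ) (ht : StrictMono t) (j : Fin n) (s' : ℕ)
    (h1 : s' + 1 = t j ∨ s' = t j + 1) (h2 : ∀ k, t k ≠ s') :
    StrictMono (Function.update t j s') := by
  intro a b hab
  by_cases ha : a = j
  · subst ha
    have hb : b ≠ a := ne_of_gt hab
    rw [Function.update_self, Function.update_of_ne hb]
    have := ht hab
    have := h2 b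
    omega
  · rw [Function.update_of_ne ha]
    by_cases hb : b = j
    · subst hb
      rw [Function.update_self]
      have := ht hab
      have := h2 a
      omega
    · rw [Function.update_of_ne hb]
      exact ht hab

theorem move_term (m : ℕ) (t : Fin (m + 1) → ℕ) (ht : StrictMono t)
    (hb : ∀ j, t j < 2 * (m + 1)) (B : Finset ℕ)
    (hBT : B ⊆ univ.image t) (hodd : ∀ s ∈ B, s % 2 = 1)
    (hlast : 2 * m + 1 ∈ univ.image t → 2 * m + 1 ∈ B) (j : Fin (m + 1)) (hj : t j ∈ B)
    (ih : ∀ (t' : Fin (m + 1) → ℕ), StrictMono t' → (∀ j, t' j < 2 * (m + 1)) →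
      B.erase (t j) ⊆ univ.image t' → (2 * m + 1 ∈ univ.image t' → 2 * m + 1 ∈ B.erase (t j)) →
      (mc HAdj (US m (univ.image t') (B.erase (t j))) : ℤ) = (DM m t' (B.erase (t j))).det)
    (s' : ℕ) (hs' : s' + 1 = t j ∨ s' = t j + 1) :
    ((if (0, s') ∈ US m (univ.image t) B then
        mc HAdj (((US m (univ.image t) B).erase (0, t j)).erase (0, s')) else 0 : ℕ) : ℤ) =
      ((DM m t (B.erase (t j))).updateCol j (fun i : Fin (m + 1) => xx i s')).det := by
  classical
  have hjo := hodd _ hj
  have hs'B : s' ∉ B := by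
    intro h1
    have := hodd _ h1
    omega
  set T := univ.image t with hTdef
  have hmemT : ∀ x, x ∈ T ↔ ∃ j, t j = x := by
    intro x
    rw [hTdef, Finset.mem_image]
    simp
  by_cases hT : s' ∈ T
  · rw [if_neg]
    · obtain ⟨k, hk⟩ := (hmemT _).1 hT
      have hkj : k ≠ j := by
        rintro rfl
        omega
      rw [Matrix.det_zero_of_column_eq hkj.symm]
      · rfl
      · intro i
        rw [Matrix.updateCol_self, Matrix.updateCol_ne hkj]
        simp only [DM, Matrix.of_apply]
        rw [hk, if_neg (fun h => hs'B (Finset.mem_of_mem_erase h))]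
    · rw [mem_US]
      rintro ⟨-, -, g3, -⟩
      rcases g3 rfl with g5 | g5
      · exact g5.2 hT
      · exact hs'B g5
  · by_cases hlt : s' < 2 * (m + 1)
    · rw [if_pos]
      · rw [DM_move m t B j s' hs'B]
        set t' := Function.update t j s' with ht'
        have hmemT' : ∀ x, x ∈ univ.image t' ↔ (x = s' ∨ (x ∈ T ∧ x ≠ t j)) := by
          intro x
          rw [Finset.mem_image]
          constructor
          · rintro ⟨k, _, hk⟩
            by_cases hkj : k = j
            · subst hkj
              rw [ht', Function.update_self] at hk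
              exact Or.inl hk.symm
            · rw [ht', Function.update_of_ne hkj] at hk
              right
              refine ⟨(hmemT x).2 ⟨k, hk⟩, ?_⟩
              rw [← hk]
              exact fun h3 => hkj (ht.injective h3)
          · rintro (hx | ⟨hx, hx2⟩)
            · exact ⟨j, Finset.mem_univ _, by rw [ht', Function.update_self, hx]⟩
            · obtain ⟨k, hk⟩ := (hmemT x).1 hx
              have hkj : k ≠ j := by
                rintro rfl
                exact hx2 hk.symm
              exact ⟨k, Finset.mem_univ _, by rw [ht', Function.update_of_ne hkj, hk]⟩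
        rw [← ih t']
        · congr 2
          ext ⟨c, x⟩
          rw [Finset.mem_erase, Finset.mem_erase, mem_US, mem_US]
          simp only [ne_eq, Prod.mk.injEq, Finset.mem_erase]
          rw [hmemT', hmemT']
          constructor
          · rintro ⟨g1, g2, g3, g4, g5, g6⟩
            refine ⟨g3, g4, ?_, ?_⟩
            · intro hc
              rcases g5 hc with g7 | g7
              · left
                refine ⟨g7.1, ?_⟩
                rintro (h3 | h3)
                · exact g1 ⟨hc, h3⟩
                · exact g7.2 h3.1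
              · right
                exact ⟨fun h3 => g2 ⟨hc, h3⟩, g7⟩
            · rintro hc hx (h3 | ⟨h3, h4⟩)
              · omega
              · exact ⟨h4, g6 hc hx h3⟩
          · rintro ⟨g3, g4, g5, g6⟩
            refine ⟨?_, ?_, g3, g4, ?_, ?_⟩
            · rintro ⟨hc, hx⟩
              rcases g5 hc with g7 | g7
              · exact g7.2 (Or.inl hx)
              · exact hs'B (hx ▸ g7.2)
            · rintro ⟨hc, hx⟩
              rcases g5 hc with g7 | g7
              · omega
              · exact g7.1 hx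
            · intro hc
              rcases g5 hc with g7 | g7
              · left
                refine ⟨g7.1, fun h3 => g7.2 (Or.inr ⟨h3, ?_⟩)⟩
                omega
              · exact Or.inr g7.2
            · intro hc hx h3
              by_cases h4 : x + 1 = t j
              · rw [h4]; exact hj
              · exact (g6 hc hx (Or.inr ⟨h3, h4⟩)).2
        · exact sm_update _ t ht j s' hs' (fun k hk => hT ((hmemT _).2 ⟨k, hk⟩))
        · intro k
          by_cases hkj : k = j
          · subst hkj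
            rw [ht', Function.update_self]
            exact hlt
          · rw [ht', Function.update_of_ne hkj]
            exact hb k
        · intro x hx
          rw [Finset.mem_erase] at hx
          rw [hmemT']
          exact Or.inr ⟨hBT hx.2, hx.1⟩
        · intro h3
          rw [hmemT'] at h3
          rw [Finset.mem_erase]
          rcases h3 with h3 | h3
          · omega
          · exact ⟨h3.2, hlast h3.1⟩
      · rw [mem_US]
        exact ⟨by omega, by omega, fun _ => Or.inl ⟨by omega, hT⟩, fun hc => by omega⟩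
    · rw [if_neg]
      · rw [Matrix.det_eq_zero_of_column_eq_zero j]
        · rfl
        · intro i
          rw [Matrix.updateCol_self]
          exact xx_supp m i s' i.2 (by omega)
      · rw [mem_US]
        rintro ⟨-, g2, -, -⟩
        omega

theorem stay_term (m : ℕ) (t : Fin (m + 1) → ℕ) (ht : StrictMono t)
    (hb : ∀ j, t j < 2 * (m + 1)) (B : Finset ℕ)
    (hBT : B ⊆ univ.image t) (hodd : ∀ s ∈ B, s % 2 = 1)
    (hlast : 2 * m + 1 ∈ univ.image t → 2 * m + 1 ∈ B) (j : Fin (m + 1)) (hj : t j ∈ B)
    (ih : ∀ (t' : Fin (m + 1) → ℕ), StrictMono t' → (∀ j, t' j < 2 * (m + 1)) →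
      B.erase (t j) ⊆ univ.image t' → (2 * m + 1 ∈ univ.image t' → 2 * m + 1 ∈ B.erase (t j)) →
      (mc HAdj (US m (univ.image t') (B.erase (t j))) : ℤ) = (DM m t' (B.erase (t j))).det) :
    ((if (1, t j - 1) ∈ US m (univ.image t) B then
        mc HAdj (((US m (univ.image t) B).erase (0, t j)).erase (1, t j - 1)) else 0 : ℕ) : ℤ) =
      ((DM m t (B.erase (t j))).updateCol j (fun i : Fin (m + 1) => xx i (t j))).det := by
  classical
  have hjo := hodd _ hj
  have hjT := hBT hj
  by_cases hlt : t j - 1 < 2 * m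
  · rw [if_pos]
    · rw [DM_self, ← ih t ht hb]
      · congr 2
        ext ⟨c, x⟩
        rw [Finset.mem_erase, Finset.mem_erase, mem_US, mem_US]
        simp only [ne_eq, Prod.mk.injEq, Finset.mem_erase]
        constructor
        · rintro ⟨g1, g2, g3, g4, g5, g6⟩
          refine ⟨g3, g4, ?_, ?_⟩
          · intro hc
            rcases g5 hc with g7 | g7
            · exact Or.inl g7
            · right
              exact ⟨fun h3 => g2 ⟨hc, h3⟩, g7⟩
          · intro hc hx h3
            refine ⟨fun h4 => g1 ⟨hc, by omega⟩, g6 hc hx h3⟩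
        · rintro ⟨g3, g4, g5, g6⟩
          refine ⟨?_, ?_, g3, g4, ?_, ?_⟩
          · rintro ⟨hc, hx⟩
            have h4 : x + 1 = t j := by omega
            have h5 : x % 2 = 0 := by omega
            have h6 := g6 hc h5 (by rw [h4]; exact hjT)
            exact h6.1 h4
          · rintro ⟨hc, hx⟩
            rcases g5 hc with g7 | g7
            · omega
            · exact g7.1 hx
          · intro hc
            rcases g5 hc with g7 | g7
            · exact Or.inl g7
            · exact Or.inr g7.2
          · intro hc hx h3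
            exact (g6 hc hx h3).2
      · intro x hx
        exact hBT (Finset.mem_of_mem_erase hx)
      · intro h3
        rw [Finset.mem_erase]
        exact ⟨by omega, hlast h3⟩
    · rw [mem_US]
      refine ⟨by omega, by omega, fun hc => by omega, fun _ _ h3 => ?_⟩
      have : t j - 1 + 1 = t j := by omega
      rw [this]
      exact hj
  · rw [if_neg]
    · rw [Matrix.det_eq_zero_of_column_eq_zero j]
      · rfl
      · intro i
        rw [Matrix.updateCol_self]
        exact xx_supp m i (t j) i.2 (by omega)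
    · rw [mem_US]
      rintro ⟨-, g2, -, -⟩
      omega

theorem main_claim (h : S_mc) (m : ℕ)
    (ih : ∀ t : Fin m → ℕ, StrictMono t → (∀ j, t j < 2 * m) →
      (mc HAdj (Half m (univ.image t)) : ℤ) = (Matrix.of fun i j : Fin m => rr i (t j)).det) :
    ∀ (k : ℕ) (B : Finset ℕ), B.card = k → (∀ s ∈ B, s % 2 = 1) →
      ∀ (t : Fin (m + 1) → ℕ), StrictMono t → (∀ j, t j < 2 * (m + 1)) →
      B ⊆ univ.image t → (2 * m + 1 ∈ univ.image t → 2 * m + 1 ∈ B) →
      (mc HAdj (US m (univ.image t) B) : ℤ) = (DM m t B).det := by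
  classical
  intro k
  induction k with
  | zero =>
    intro B hB _ t ht hb _ hlast
    have hB0 : B = ∅ := Finset.card_eq_zero.1 hB
    subst hB0
    exact base_case h m ih t ht hb (fun h3 => absurd (hlast h3) (Finset.notMem_empty _))
  | succ k ihk =>
    intro B hB hodd t ht hb hBT hlast
    obtain ⟨s, hs⟩ : B.Nonempty := by
      rw [← Finset.card_pos]
      omega
    obtain ⟨j, _, hj⟩ := Finset.mem_image.1 (hBT hs)
    subst hj
    have hso := hodd _ hs
    have ih' : ∀ (t' : Fin (m + 1) → ℕ), StrictMono t' → (∀ j, t' j < 2 * (m + 1)) →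
        B.erase (t j) ⊆ univ.image t' → (2 * m + 1 ∈ univ.image t' → 2 * m + 1 ∈ B.erase (t j)) →
        (mc HAdj (US m (univ.image t') (B.erase (t j))) : ℤ) =
          (DM m t' (B.erase (t j))).det := by
      intro t' h1 h2 h3 h4
      apply ihk (B.erase (t j)) _ _ t' h1 h2 h3 h4
      · rw [Finset.card_erase_of_mem hs, hB]
        rfl
      · intro x hx
        exact hodd x (Finset.mem_of_mem_erase hx)
    have hU : (0, t j) ∈ US m (univ.image t) B := by
      rw [mem_US]
      exact ⟨by omega, by have := hb j; omega, fun _ => Or.inr hs, fun hc => by omega⟩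
    rw [mc_three h _ (0, t j) hU (0, t j - 1) (0, t j + 1) (1, t j - 1)]
    · rw [DM_update m t ht B j hs, Matrix.det_updateCol_add, Matrix.det_updateCol_add]
      rw [← move_term m t ht hb B hBT hodd hlast j hs ih' (t j - 1) (by omega)]
      rw [← move_term m t ht hb B hBT hodd hlast j hs ih' (t j + 1) (by omega)]
      rw [← stay_term m t ht hb B hBT hodd hlast j hs ih']
      push_cast
      ring
    · intro h3
      rw [Prod.mk.injEq] at h3
      omega
    · intro h3
      rw [Prod.mk.injEq] at h3
      omega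
    · intro h3
      rw [Prod.mk.injEq] at h3
      omega
    · rintro ⟨c, x⟩ _
      simp only [HAdj, Prod.mk.injEq]
      omega

theorem s_half (h : S_mc) : S_half := by
  classical
  intro m
  induction m with
  | zero =>
    intro t _ _
    have h1 : Half 0 (univ.image t) = ∅ := by
      ext ⟨c, r⟩
      rw [mem_Half]
      simp
    rw [h1, mc_empty h]
    simp
  | succ m ih =>
    intro t ht hb
    have hm := main_claim h m ih _ ((univ.image t).filter (fun s => s % 2 = 1)) rfl
      (fun s hs => (Finset.mem_filter.1 hs).2) t ht hb (Finset.filter_subset _ _)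
      (fun h3 => Finset.mem_filter.2 ⟨h3, by omega⟩)
    have h1 : US m (univ.image t) ((univ.image t).filter (fun s => s % 2 = 1)) =
        Half (m + 1) (univ.image t) := by
      ext ⟨c, r⟩
      rw [mem_US, mem_Half]
      simp only [Finset.mem_filter]
      constructor
      · rintro ⟨g1, g2, g3, g4⟩
        refine ⟨g1, g2, ?_⟩
        intro hc
        rcases g3 hc with g5 | g5
        · exact Or.inl g5
        · exact Or.inr ⟨g5.2, g5.1⟩
      · rintro ⟨g1, g2, g3⟩
        refine ⟨g1, g2, ?_, ?_⟩
        · intro hc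
          rcases g3 hc with g5 | g5
          · exact Or.inl g5
          · exact Or.inr ⟨g5.2, g5.1⟩
        · intro hc hr h3
          exact ⟨h3, by omega⟩
    have h2 : DM m t ((univ.image t).filter (fun s => s % 2 = 1)) =
        Matrix.of fun i j : Fin (m + 1) => rr i (t j) := by
      ext i j
      simp only [DM, Matrix.of_apply, Finset.mem_filter]
      have h3 : t j ∈ univ.image t := Finset.mem_image_of_mem t (Finset.mem_univ j)
      rcases Nat.mod_two_eq_zero_or_one (t j) with h4 | h4
      · rw [if_neg (fun h5 => by omega), rr_even _ _ h4]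
      · rw [if_pos ⟨h3, h4⟩, rr_odd _ _ h4]
    rw [h1, h2] at hm
    exact hm

end Pool.Agent.R168.Az
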